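import Pool.Agent.Helper64.Breadth.Final

/-!
# MP_5de915_nt: almost all rows have many elements of breadth three

`Br l x y` says that `(x, y)` is obtained from `(1, 1)` by a word in `G (x, y) = (x + y, y)` and
`S (x, y) = (3 x - 2 y + 1, 2 x - y + 1)` with exactly `l` letters `G`, and `c n` is the number of
integers `k` with `Br 3 n k`, that is, the number of elements of breadth exactly three in row `n`.

For every `δ < log 2` all `n` outside a set of natural density `0` satisfy `c n ≥ (log n) ^ δ`; in
particular `c n` tends to infinity when `n` runs outside a set of natural density `0`.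
-/

open Filter Topology
open Pool.Agent.Helper64.Breadth

namespace Pool.Agent.Helper64.Withdrawn.AlmostAllRows

theorem result (δ : ℝ) (hδ : δ < Real.log 2) :
    Tendsto (fun N : ℕ => (((Finset.range N).filter
      (fun n => (c n : ℝ) < Real.log n ^ δ)).card : ℝ) / N) atTop (𝓝 0) :=
  almost_all hδ

end Pool.Agent.Helper64.Withdrawn.AlmostAllRows
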